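import Mathlib

/-!
# Alternating list chains on a finite vertex set

A chain is an alternating function on lists of vertices.  We define the boundary, the cone
operator, and prove the basic filling lemmas.
-/

namespace Pool.Agent.Lib.ZpDold

open Finset

variable {A : Type*} {F : Type*} [AddCommGroup F]

/-- Alternating functions on lists. -/
structure Alt (c : List A → F) : Prop where
  swap : ∀ pre u w l, c (pre ++ u :: w :: l) = - c (pre ++ w :: u :: l)
  dup : ∀ pre u l, c (pre ++ u :: u :: l) = 0

theorem Alt.perm_aux {c : List A → F} (hc : Alt c) {l l' : List A} (h : l.Perm l') :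
    ∀ pre, c (pre ++ l) = 0 → c (pre ++ l') = 0 := by
  induction h with
  | nil => intro pre h; exact h
  | cons x _ ih =>
    intro pre h
    have := ih (pre ++ [x]) (by simpa using h)
    simpa using this
  | swap x y l =>
    intro pre h
    rw [hc.swap, h, neg_zero]
  | trans _ _ ih1 ih2 => intro pre h; exact ih2 pre (ih1 pre h)

theorem Alt.perm {c : List A → F} (hc : Alt c) {l l' : List A} (h : l.Perm l') (h0 : c l = 0) :
    c l' = 0 := by
  simpa using hc.perm_aux h [] (by simpa using h0)

theorem Alt.nodup {c : List A → F} (hc : Alt c) {l : List A} (h : c l ≠ 0) : l.Nodup := by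
  by_contra hn
  rw [List.nodup_iff_sublist] at hn
  push Not at hn
  obtain ⟨x, hx⟩ := hn
  obtain ⟨t, ht⟩ := hx.exists_perm_append
  apply h
  apply hc.perm ht.symm
  simpa using hc.dup [] x t

/-- The link of a chain at a vertex. -/
def lnk (u : A) (c : List A → F) : List A → F := fun l => c (u :: l)

theorem Alt.lnk {c : List A → F} (hc : Alt c) (u : A) : Alt (lnk u c) :=
  ⟨fun pre a b l => hc.swap (u :: pre) a b l, fun pre a l => hc.dup (u :: pre) a l⟩

variable [DecidableEq A]

/-- Chains of size `s` supported on the family `K`. -/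
def chains (F : Type*) [AddCommGroup F] (K : Finset A → Prop) (s : ℕ) :
    AddSubgroup (List A → F) where
  carrier := {c | Alt c ∧ ∀ l, c l ≠ 0 → l.length = s ∧ K l.toFinset}
  zero_mem' := ⟨⟨by simp, by simp⟩, by simp⟩
  add_mem' := by
    rintro a b ⟨ha, ha'⟩ ⟨hb, hb'⟩
    refine ⟨⟨fun pre u w l => ?_, fun pre u l => ?_⟩, fun l hl => ?_⟩
    · simp only [Pi.add_apply]; rw [ha.swap, hb.swap]; abel
    · simp only [Pi.add_apply]; rw [ha.dup, hb.dup, add_zero]
    · by_cases h : a l = 0
      · apply hb'; simpa [h] using hl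
      · exact ha' l h
  neg_mem' := by
    rintro a ⟨ha, ha'⟩
    refine ⟨⟨fun pre u w l => ?_, fun pre u l => ?_⟩, fun l hl => ?_⟩
    · simp only [Pi.neg_apply]; rw [ha.swap]
    · simp only [Pi.neg_apply]; rw [ha.dup, neg_zero]
    · apply ha'; simpa using hl

theorem mem_chains {K : Finset A → Prop} {s : ℕ} {c : List A → F} :
    c ∈ chains F K s ↔ Alt c ∧ ∀ l, c l ≠ 0 → l.length = s ∧ K l.toFinset := Iff.rfl

theorem chains_mono {K K' : Finset A → Prop} (h : ∀ σ, K σ → K' σ) {s : ℕ} {c : List A → F}
    (hc : c ∈ chains F K s) : c ∈ chains F K' s :=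
  ⟨hc.1, fun l hl => ⟨(hc.2 l hl).1, h _ (hc.2 l hl).2⟩⟩

/-- Restriction of a chain to the faces satisfying `R`. -/
noncomputable def restr (R : Finset A → Prop) (c : List A → F) : List A → F := by
  classical exact fun l => if R l.toFinset then c l else 0

theorem restr_pos {R : Finset A → Prop} {c : List A → F} {l : List A} (h : R l.toFinset) :
    restr R c l = c l := by simp [restr, h]

theorem restr_neg {R : Finset A → Prop} {c : List A → F} {l : List A} (h : ¬ R l.toFinset) :
    restr R c l = 0 := by simp [restr, h]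

theorem restr_mem {K : Finset A → Prop} (R : Finset A → Prop) {s : ℕ} {c : List A → F}
    (hc : c ∈ chains F K s) : restr R c ∈ chains F (fun σ => K σ ∧ R σ) s := by
  refine ⟨⟨fun pre u w l => ?_, fun pre u l => ?_⟩, fun l hl => ?_⟩
  · have : (pre ++ u :: w :: l).toFinset = (pre ++ w :: u :: l).toFinset := by
      ext; simp; tauto
    by_cases h : R (pre ++ u :: w :: l).toFinset
    · rw [restr_pos h, restr_pos (this ▸ h), hc.1.swap]
    · rw [restr_neg h, restr_neg (this ▸ h), neg_zero]
  · by_cases h : R (pre ++ u :: u :: l).toFinset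
    · rw [restr_pos h, hc.1.dup]
    · rw [restr_neg h]
  · by_cases h : R l.toFinset
    · rw [restr_pos h] at hl
      exact ⟨(hc.2 l hl).1, (hc.2 l hl).2, h⟩
    · exact absurd (restr_neg h) hl

/-- The cone operator, by recursion on the list. -/
def coneAux (v : A) : List A → (List A → F) → F
  | [], _ => 0
  | u :: l, c => (if u = v then c l else 0) - coneAux v l (lnk u c)

/-- The cone with apex `v` over a chain. -/
def cone (v : A) (c : List A → F) : List A → F := fun l => coneAux v l c

theorem cone_nil (v : A) (c : List A → F) : cone v c [] = 0 := rfl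

theorem cone_cons (v u : A) (c : List A → F) (l : List A) :
    cone v c (u :: l) = (if u = v then c l else 0) - cone v (lnk u c) l := rfl

theorem cone_zero (v : A) (l : List A) : cone v (0 : List A → F) l = 0 := by
  induction l with
  | nil => rfl
  | cons u l ih =>
    rw [cone_cons]
    have : lnk u (0 : List A → F) = 0 := rfl
    rw [this, ih]; simp

theorem cone_add (v : A) (l : List A) :
    ∀ c d : List A → F, cone v (c + d) l = cone v c l + cone v d l := by
  induction l with
  | nil => intro c d; simp [cone_nil]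
  | cons u l ih =>
    intro c d
    have : lnk u (c + d) = lnk u c + lnk u d := rfl
    rw [cone_cons, cone_cons, cone_cons, this, ih]
    split_ifs <;> simp <;> abel

theorem cone_neg (v : A) (l : List A) (c : List A → F) : cone v (-c) l = - cone v c l := by
  have := cone_add v l c (-c)
  rw [add_neg_cancel, cone_zero] at this
  exact (neg_eq_of_add_eq_zero_right this.symm).symm

theorem cone_sum {ι : Type*} (v : A) (l : List A) (s : Finset ι) (c : ι → List A → F) :
    cone v (∑ i ∈ s, c i) l = ∑ i ∈ s, cone v (c i) l := by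
  classical
  induction s using Finset.induction_on with
  | empty => simp [cone_zero]
  | insert a s ha ih => rw [sum_insert ha, sum_insert ha, cone_add, ih]

theorem cone_supp (v : A) (l : List A) : ∀ c : List A → F, cone v c l ≠ 0 →
    ∃ pre post, l = pre ++ v :: post ∧ c (pre ++ post) ≠ 0 := by
  induction l with
  | nil => intro c h; exact absurd rfl h
  | cons u l ih =>
    intro c h
    rw [cone_cons] at h
    by_cases h1 : cone v (lnk u c) l = 0
    · rw [h1, sub_zero] at h
      by_cases huv : u = v
      · rw [if_pos huv] at h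
        exact ⟨[], l, by simp [huv], by simpa using h⟩
      · exact absurd (if_neg huv) h
    · obtain ⟨pre, post, rfl, h2⟩ := ih _ h1
      exact ⟨u :: pre, post, rfl, h2⟩

theorem Alt.cone (v : A) {c : List A → F} (hc : Alt c) : Alt (cone v c) := by
  constructor
  · intro pre
    induction pre generalizing c with
    | nil =>
      intro u w l
      simp only [List.nil_append, cone_cons]
      have : ZpDold.lnk w (ZpDold.lnk u c) = - ZpDold.lnk u (ZpDold.lnk w c) := by
        funext t; exact hc.swap [] u w t
      rw [this, cone_neg]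
      simp only [ZpDold.lnk]
      abel
    | cons x pre ih =>
      intro u w l
      simp only [List.cons_append, cone_cons]
      rw [ih (hc.lnk x)]
      split_ifs
      · rw [hc.swap]; abel
      · abel
  · intro pre
    induction pre generalizing c with
    | nil =>
      intro u l
      simp only [List.nil_append, cone_cons]
      have : ZpDold.lnk u (ZpDold.lnk u c) = 0 := by
        funext t; exact hc.dup [] u t
      rw [this, cone_zero]
      simp only [ZpDold.lnk]
      abel
    | cons x pre ih =>
      intro u l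
      simp only [List.cons_append, cone_cons]
      rw [ih (hc.lnk x)]
      split_ifs
      · rw [hc.dup]; abel
      · abel

theorem cone_mem {K K' : Finset A → Prop} (v : A) (h : ∀ σ, K σ → K' (insert v σ)) {s : ℕ}
    {c : List A → F} (hc : c ∈ chains F K s) : cone v c ∈ chains F K' (s + 1) := by
  refine ⟨hc.1.cone v, fun l hl => ?_⟩
  obtain ⟨pre, post, rfl, h2⟩ := cone_supp v l c hl
  obtain ⟨h3, h4⟩ := hc.2 _ h2
  refine ⟨by simp at h3 ⊢; omega, ?_⟩
  have : (pre ++ v :: post).toFinset = insert v (pre ++ post).toFinset := by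
    ext; simp
  rw [this]; exact h _ h4

theorem cone_lnk_of_mem (x : A) (l : List A) : ∀ c : List A → F, Alt c → x ∈ l →
    cone x (lnk x c) l = c l := by
  induction l with
  | nil => intro c _ h; simp at h
  | cons u l ih =>
    intro c hc hx
    rw [cone_cons]
    by_cases hu : u = x
    · subst hu
      have : lnk u (lnk u c) = 0 := by funext t; exact hc.dup [] u t
      rw [this, cone_zero, if_pos rfl, sub_zero]; rfl
    · have hx' : x ∈ l := by
        rcases List.mem_cons.1 hx with h | h
        · exact absurd h.symm hu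
        · exact h
      have : lnk u (lnk x c) = - lnk x (lnk u c) := by funext t; exact hc.swap [] x u t
      rw [if_neg hu, this, cone_neg, ih _ (hc.lnk u) hx']
      simp [lnk]

theorem cone_of_not_mem (x : A) (l : List A) (c : List A → F) (hx : x ∉ l) :
    cone x c l = 0 := by
  by_contra h
  obtain ⟨pre, post, rfl, _⟩ := cone_supp x l c h
  simp at hx

variable [Fintype A]

/-- The boundary operator. -/
def bd : (List A → F) →+ (List A → F) where
  toFun c := fun l => ∑ v, c (v :: l)
  map_zero' := by funext l; simp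
  map_add' a b := by funext l; simp [sum_add_distrib]

omit [DecidableEq A] in
theorem bd_apply (c : List A → F) (l : List A) : bd c l = ∑ v, c (v :: l) := rfl

omit [DecidableEq A] in
theorem Alt.bd {c : List A → F} (hc : Alt c) : Alt (bd c) := by
  constructor
  · intro pre u w l
    simp only [bd_apply, ← sum_neg_distrib]
    exact sum_congr rfl fun v _ => hc.swap (v :: pre) u w l
  · intro pre u l
    simp only [bd_apply]
    exact sum_eq_zero fun v _ => hc.dup (v :: pre) u l

omit [DecidableEq A] in
theorem bd_bd {c : List A → F} (hc : Alt c) : bd (bd c) = 0 := by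
  funext l
  simp only [bd_apply, Pi.zero_apply]
  rw [← sum_product']
  refine sum_involution (fun a _ => (a.2, a.1)) ?_ ?_ ?_ ?_
  · intro a _
    have := hc.swap [] a.2 a.1 l
    simp only [List.nil_append] at this
    simp [this]
  · rintro ⟨u, w⟩ _ h h'
    simp only [Prod.mk.injEq] at h'
    apply h
    rw [h'.1]
    exact hc.dup [] u l
  · simp
  · simp

theorem bd_mem {K : Finset A → Prop} (hK : ∀ σ τ, K σ → τ ⊆ σ → K τ) {s : ℕ} {c : List A → F}
    (hc : c ∈ chains F K (s + 1)) : bd c ∈ chains F K s := by
  refine ⟨hc.1.bd, fun l hl => ?_⟩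
  rw [bd_apply] at hl
  obtain ⟨v, _, hv⟩ := exists_ne_zero_of_sum_ne_zero hl
  obtain ⟨h1, h2⟩ := hc.2 _ hv
  refine ⟨by simpa using h1, hK _ _ h2 ?_⟩
  intro a ha; simp at ha ⊢; exact Or.inr ha

theorem bd_cone (v : A) (c : List A → F) : bd (cone v c) = c - cone v (bd c) := by
  funext l
  simp only [bd_apply, cone_cons, sum_sub_distrib, Pi.sub_apply]
  rw [← cone_sum]
  have : ∑ u, lnk u c = bd c := by funext t; simp [bd_apply, lnk]
  rw [this]; simp

omit [DecidableEq A] in
theorem bd_lnk {c : List A → F} (hc : Alt c) (x : A) : bd (lnk x c) = - lnk x (bd c) := by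
  funext l
  simp only [bd_apply, lnk, Pi.neg_apply, ← sum_neg_distrib]
  exact sum_congr rfl fun v _ => hc.swap [] x v l

/-- Every cycle of size `s` in `K` is the boundary of a chain in `K'`. -/
def Bounds (F : Type*) [AddCommGroup F] (K K' : Finset A → Prop) (s : ℕ) : Prop :=
  ∀ c ∈ chains F K s, bd c = 0 → ∃ b ∈ chains F K' (s + 1), bd b = c

theorem Bounds.mono {K K' L L' : Finset A → Prop} {s : ℕ} (h : Bounds F K K' s)
    (h1 : ∀ σ, L σ → K σ) (h2 : ∀ σ, K' σ → L' σ) : Bounds F L L' s := by
  intro c hc h0
  obtain ⟨b, hb, hb'⟩ := h c (chains_mono h1 hc) h0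
  exact ⟨b, chains_mono h2 hb, hb'⟩

theorem bounds_cone {K K' : Finset A → Prop} (v : A) (h : ∀ σ, K σ → K' (insert v σ)) (s : ℕ) :
    Bounds F K K' s := by
  intro c hc h0
  refine ⟨cone v c, cone_mem v h hc, ?_⟩
  rw [bd_cone, h0]
  funext l; simp [cone_zero]

/-- Elimination of one vertex. -/
theorem bounds_elim {K K' K1 L : Finset A → Prop} (x : A) {s : ℕ}
    (hlink : Bounds F (fun σ => K (insert x σ) ∧ x ∉ σ) L s)
    (hcone : ∀ σ, L σ → K' (insert x σ))
    (h1 : ∀ σ, K σ → x ∉ σ → K1 σ) (h2 : ∀ σ, L σ → K1 σ)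
    (hrest : Bounds F K1 K' (s + 1)) : Bounds F K K' (s + 1) := by
  intro c hc h0
  have hd : lnk x c ∈ chains F (fun σ => K (insert x σ) ∧ x ∉ σ) s := by
    refine ⟨hc.1.lnk x, fun l hl => ?_⟩
    obtain ⟨h3, h4⟩ := hc.2 _ hl
    have h5 := hc.1.nodup hl
    refine ⟨by simpa using h3, by simpa using h4, ?_⟩
    simpa using (List.nodup_cons.1 h5).1
  have hd0 : bd (lnk x c) = 0 := by
    rw [bd_lnk hc.1, h0]; funext l; simp [lnk]
  obtain ⟨e, he, he'⟩ := hlink _ hd hd0
  have hb : cone x e ∈ chains F K' (s + 1 + 1) := cone_mem x hcone he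
  have hbd : bd (cone x e) = e - cone x (lnk x c) := by rw [bd_cone, he']
  have hc1 : c - cone x (lnk x c) ∈ chains F K1 (s + 1) := by
    have hm : cone x (lnk x c) ∈ chains F K (s + 1) := cone_mem x (fun σ h => h.1) hd
    have hm2 := (chains F K (s + 1)).sub_mem hc hm
    refine ⟨hm2.1, fun l hl => ⟨(hm2.2 l hl).1, h1 _ (hm2.2 l hl).2 ?_⟩⟩
    intro hx
    apply hl
    rw [Pi.sub_apply, cone_lnk_of_mem x l c hc.1 (by simpa using hx), sub_self]
  have hc2 : c + bd (cone x e) ∈ chains F K1 (s + 1) := by
    have : c + bd (cone x e) = (c - cone x (lnk x c)) + e := by rw [hbd]; abel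
    rw [this]
    exact (chains F K1 (s + 1)).add_mem hc1 (chains_mono h2 he)
  obtain ⟨b, hb1, hb2⟩ := hrest _ hc2 (by rw [map_add, h0, bd_bd hb.1, add_zero])
  refine ⟨b - cone x e, (chains F K' (s + 1 + 1)).sub_mem hb1 hb, ?_⟩
  rw [map_sub, hb2]; abel

theorem chains_eq_zero {K : Finset A → Prop} {s : ℕ} (hs : Fintype.card A < s)
    {c : List A → F} (hc : c ∈ chains F K s) : c = 0 := by
  funext l
  by_contra h
  have h1 := (hc.2 l h).1
  have h2 := (hc.1.nodup h).length_le_card
  omega

end Pool.Agent.Lib.ZpDold
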