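import Pool.Agent.Lib.ZpDold.Chains

/-!
# A combinatorial form of Dold's theorem for cyclic groups of prime order
-/

namespace Pool.Agent.Lib.ZpDold

open Finset

variable {A : Type*} {F : Type*} [AddCommGroup F]

/-- The action of a permutation of the vertices on chains. -/
def shift (F : Type*) [AddCommGroup F] (g : Equiv.Perm A) : AddMonoid.End (List A → F) where
  toFun c := fun l => c (l.map g)
  map_zero' := rfl
  map_add' _ _ := rfl

theorem shift_apply (g : Equiv.Perm A) (c : List A → F) (l : List A) :
    shift F g c l = c (l.map g) := rfl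

theorem end_mul_apply (f f' : AddMonoid.End (List A → F)) (c : List A → F) :
    (f * f') c = f (f' c) := rfl

theorem shift_pow_apply (g : Equiv.Perm A) (j : ℕ) (c : List A → F) (l : List A) :
    (shift F g ^ j) c l = c (l.map (g ^ j)) := by
  induction j generalizing c with
  | zero => simp
  | succ j ih =>
    rw [pow_succ, end_mul_apply, ih, shift_apply, List.map_map, pow_succ']
    rfl

theorem shift_pow_eq_one {g : Equiv.Perm A} {p : ℕ} (hg : g ^ p = 1) : shift F g ^ p = 1 := by
  ext c l
  rw [shift_pow_apply, hg]; simp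

/-- The two operators of the periodic resolution. -/
def op (F : Type*) [AddCommGroup F] (g : Equiv.Perm A) (p : ℕ) :
    Bool → AddMonoid.End (List A → F)
  | true => shift F g - 1
  | false => ∑ j ∈ range p, shift F g ^ j

theorem op_mul_op {g : Equiv.Perm A} {p : ℕ} (hg : g ^ p = 1) (b : Bool) :
    op F g p (!b) * op F g p b = 0 := by
  cases b
  · simp only [op, Bool.not_false]
    rw [mul_geom_sum, shift_pow_eq_one hg, sub_self]
  · simp only [op, Bool.not_true]
    rw [geom_sum_mul, shift_pow_eq_one hg, sub_self]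

theorem end_sum_apply {ι : Type*} (s : Finset ι) (f : ι → AddMonoid.End (List A → F))
    (c : List A → F) : (∑ i ∈ s, f i) c = ∑ i ∈ s, f i c := by
  classical
  induction s using Finset.induction_on with
  | empty => simp
  | insert a s ha ih => rw [sum_insert ha, sum_insert ha, ← ih]; rfl

variable [DecidableEq A]

theorem toFinset_map' (g : A → A) (l : List A) : (l.map g).toFinset = l.toFinset.image g := by
  ext; simp

theorem image_pow_succ (g : Equiv.Perm A) (j : ℕ) (σ : Finset A) :
    σ.image (g ^ (j + 1)) = (σ.image (g ^ j)).image g := by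
  rw [image_image, pow_succ']; rfl

theorem inv_pow' {K : Finset A → Prop} {g : Equiv.Perm A} (hK : ∀ σ, K σ → K (σ.image g))
    (j : ℕ) (σ : Finset A) (h : K σ) : K (σ.image (g ^ j)) := by
  induction j with
  | zero => simpa using h
  | succ j ih => rw [image_pow_succ]; exact hK _ ih

theorem inv_back {K : Finset A → Prop} {g : Equiv.Perm A} {p : ℕ} (hp : 0 < p) (hg : g ^ p = 1)
    (hK : ∀ σ, K σ → K (σ.image g)) (σ : Finset A) (h : K (σ.image g)) : K σ := by
  have := inv_pow' hK (p - 1) _ h
  rw [image_image] at this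
  have h2 : (⇑(g ^ (p - 1)) ∘ ⇑g) = id := by
    funext a
    have : g ^ (p - 1) * g = 1 := by rw [← pow_succ, Nat.sub_add_cancel hp, hg]
    simpa using congrArg (fun e : Equiv.Perm A => e a) this
  simpa [h2] using this

theorem shift_mem {K : Finset A → Prop} {g : Equiv.Perm A} {p : ℕ} (hp : 0 < p) (hg : g ^ p = 1)
    (hK : ∀ σ, K σ → K (σ.image g)) {s : ℕ} {c : List A → F} (hc : c ∈ chains F K s) :
    shift F g c ∈ chains F K s := by
  refine ⟨⟨fun pre u w l => ?_, fun pre u l => ?_⟩, fun l hl => ?_⟩
  · simp only [shift_apply, List.map_append, List.map_cons]; exact hc.1.swap _ _ _ _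
  · simp only [shift_apply, List.map_append, List.map_cons]; exact hc.1.dup _ _ _
  · obtain ⟨h1, h2⟩ := hc.2 _ hl
    rw [toFinset_map'] at h2
    exact ⟨by simpa using h1, inv_back hp hg hK _ h2⟩

theorem shift_pow_mem {K : Finset A → Prop} {g : Equiv.Perm A} {p : ℕ} (hp : 0 < p)
    (hg : g ^ p = 1) (hK : ∀ σ, K σ → K (σ.image g)) {s : ℕ} (j : ℕ) {c : List A → F}
    (hc : c ∈ chains F K s) : (shift F g ^ j) c ∈ chains F K s := by
  induction j with
  | zero => simpa using hc
  | succ j ih => rw [pow_succ', end_mul_apply]; exact shift_mem hp hg hK ih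

theorem op_mem {K : Finset A → Prop} {g : Equiv.Perm A} {p : ℕ} (hp : 0 < p)
    (hg : g ^ p = 1) (hK : ∀ σ, K σ → K (σ.image g)) {s : ℕ} (b : Bool) {c : List A → F}
    (hc : c ∈ chains F K s) : op F g p b c ∈ chains F K s := by
  cases b
  · simp only [op]
    rw [end_sum_apply]
    exact sum_mem fun j _ => shift_pow_mem hp hg hK j hc
  · exact (chains F K s).sub_mem (shift_mem hp hg hK hc) hc

section free

variable {Y : Finset A → Prop} {g : Equiv.Perm A} {p : ℕ}

theorem image_iterate (g : Equiv.Perm A) (j : ℕ) (σ : Finset A) :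
    (fun τ : Finset A => τ.image g)^[j] σ = σ.image (g ^ j) := by
  induction j with
  | zero => simp
  | succ j ih => rw [Function.iterate_succ_apply', ih, image_pow_succ]

theorem image_pow_add (g : Equiv.Perm A) (i j : ℕ) (σ : Finset A) :
    σ.image (g ^ (i + j)) = (σ.image (g ^ j)).image (g ^ i) := by
  rw [image_image, pow_add]; rfl

/-- A set of representatives of the orbits of faces. -/
theorem exists_rep (hp : p.Prime) (hg : g ^ p = 1) (hY : ∀ σ, Y σ → Y (σ.image g))
    (hfree : ∀ σ, Y σ → σ.Nonempty → σ.image g ≠ σ) :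
    ∃ R : Finset A → Prop, ∀ σ, Y σ → σ.Nonempty →
      ∃ j ∈ range p, R (σ.image (g ^ j)) ∧ ∀ i ∈ range p, R (σ.image (g ^ i)) → i = j := by
  have hp0 := hp.pos
  let r : Setoid (Finset A) :=
    { r := fun σ τ => ∃ j : ℕ, τ = σ.image (g ^ j)
      iseqv := by
        refine ⟨fun σ => ⟨0, by simp⟩, ?_, ?_⟩
        · rintro σ τ ⟨j, rfl⟩
          refine ⟨(p - 1) * j, ?_⟩
          rw [← image_pow_add]
          have : (p - 1) * j + j = p * j := by
            conv_rhs => rw [← Nat.sub_add_cancel hp0]
            ring
          rw [this, pow_mul, hg]; simp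
        · rintro σ τ ρ ⟨i, rfl⟩ ⟨j, rfl⟩
          exact ⟨j + i, by rw [image_pow_add]⟩ }
  have key : ∀ σ, Y σ → σ.Nonempty → ∀ i j, i < j → j < p →
      σ.image (g ^ i) ≠ σ.image (g ^ j) := by
    intro σ hσ hne i j hij hj h
    have h1 : Function.IsPeriodicPt (fun τ : Finset A => τ.image g) (j - i) (σ.image (g ^ i)) := by
      unfold Function.IsPeriodicPt Function.IsFixedPt
      rw [image_iterate, ← image_pow_add, Nat.sub_add_cancel hij.le, h]
    have h2 : Function.IsPeriodicPt (fun τ : Finset A => τ.image g) p (σ.image (g ^ i)) := by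
      unfold Function.IsPeriodicPt Function.IsFixedPt
      rw [image_iterate, hg]; simp
    have h3 := h1.gcd h2
    have h4 : Nat.gcd (j - i) p = 1 :=
      (Nat.coprime_of_lt_prime (by omega) (by omega) hp).symm
    rw [h4] at h3
    exact hfree _ (inv_pow' hY i σ hσ) (hne.image _) h3
  refine ⟨fun σ => σ = (Quotient.mk r σ).out, fun σ hσ hne => ?_⟩
  obtain ⟨j, hj⟩ : r σ (Quotient.mk r σ).out := r.symm (Quotient.mk_out σ)
  have hcls : ∀ i : ℕ, Quotient.mk r (σ.image (g ^ i : Equiv.Perm A)) = Quotient.mk r σ := fun i =>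
    (Quotient.sound (s := r) ⟨i, rfl⟩).symm
  have hj' : (Quotient.mk r σ).out = σ.image (g ^ (j % p)) := by
    rw [hj]
    conv_lhs => rw [← Nat.mod_add_div j p, pow_add, pow_mul, hg, one_pow, mul_one]
  refine ⟨j % p, mem_range.2 (Nat.mod_lt _ hp0), ?_, ?_⟩
  · beta_reduce
    rw [hcls, hj']
  · intro i hi h
    rw [hcls, hj'] at h
    rcases lt_trichotomy i (j % p) with h1 | h1 | h1
    · exact absurd h (key σ hσ hne _ _ h1 (Nat.mod_lt _ hp0))
    · exact h1
    · exact absurd h.symm (key σ hσ hne _ _ h1 (mem_range.1 hi))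

/-- Exactness of the periodic resolution on free chains. -/
theorem op_exact (hp : p.Prime) (hg : g ^ p = 1) (hY : ∀ σ, Y σ → Y (σ.image g))
    (hfree : ∀ σ, Y σ → σ.Nonempty → σ.image g ≠ σ) {s : ℕ} (b : Bool) {c : List A → F}
    (hc : c ∈ chains F Y (s + 1)) (h0 : op F g p b c = 0) :
    ∃ a ∈ chains F Y (s + 1), c = op F g p (!b) a := by
  classical
  have hp0 := hp.pos
  obtain ⟨R, hR⟩ := exists_rep hp hg hY hfree
  have hρ : ∀ d ∈ chains F Y (s + 1), restr R d ∈ chains F Y (s + 1) := fun d hd =>
    chains_mono (fun σ h => h.1) (restr_mem R hd)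
  have hsh : ∀ (j : ℕ) (d : List A → F) (l : List A), (shift F g ^ j) (restr R d) l =
      if R (l.toFinset.image (g ^ j)) then (shift F g ^ j) d l else 0 := by
    intro j d l
    rw [shift_pow_apply, shift_pow_apply]
    split_ifs with h
    · rw [restr_pos (by rwa [toFinset_map'])]
    · rw [restr_neg (by rwa [toFinset_map'])]
  have hdec : ∀ l, c l = ∑ j ∈ range p, if R (l.toFinset.image (g ^ j)) then c l else 0 := by
    intro l
    by_cases h : c l = 0
    · simp [h]
    · obtain ⟨h1, h2⟩ := hc.2 l h
      have hne : l.toFinset.Nonempty := by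
        cases l with
        | nil => simp at h1
        | cons a l => exact ⟨a, by simp⟩
      obtain ⟨j, hj, hj1, hj2⟩ := hR _ h2 hne
      rw [sum_eq_single j]
      · rw [if_pos hj1]
      · intro i hi hij
        rw [if_neg (fun h => hij (hj2 i hi h))]
      · intro h; exact absurd hj h
  cases b
  · -- the norm kills `c`
    simp only [op, Bool.not_false] at h0 ⊢
    refine ⟨∑ j ∈ range p, (∑ i ∈ range j, shift F g ^ i) (restr R ((shift F g ^ (p - j)) c)),
      ?_, ?_⟩
    · refine sum_mem fun j _ => ?_
      rw [end_sum_apply]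
      exact sum_mem fun i _ => shift_pow_mem hp0 hg hY i (hρ _ (shift_pow_mem hp0 hg hY _ hc))
    · rw [map_sum]
      have h1 : ∀ j ∈ range p, (shift F g - 1) ((∑ i ∈ range j, shift F g ^ i)
          (restr R ((shift F g ^ (p - j)) c))) =
          (shift F g ^ j) (restr R ((shift F g ^ (p - j)) c)) -
            restr R ((shift F g ^ (p - j)) c) := by
        intro j _
        rw [← end_mul_apply, mul_geom_sum]; rfl
      rw [sum_congr rfl h1, sum_sub_distrib]
      have h2 : ∑ j ∈ range p, restr R ((shift F g ^ (p - j)) c) = 0 := by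
        funext l
        rw [Finset.sum_apply, Pi.zero_apply]
        by_cases h : R l.toFinset
        · simp only [restr_pos h]
          have h3 : ∑ j ∈ range p, (shift F g ^ (p - j)) c =
              shift F g ((∑ j ∈ range p, shift F g ^ j) c) := by
            rw [end_sum_apply, map_sum, ← sum_range_reflect]
            refine sum_congr rfl fun j hj => ?_
            have := mem_range.1 hj
            rw [← end_mul_apply, ← pow_succ']
            congr 2; omega
          rw [h0, map_zero] at h3
          have := congrFun h3 l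
          rwa [Finset.sum_apply] at this
        · simp only [restr_neg h, sum_const_zero]
      rw [h2, sub_zero]
      funext l
      rw [Finset.sum_apply, hdec l]
      refine sum_congr rfl fun j hj => ?_
      rw [hsh, ← end_mul_apply, ← pow_add, Nat.add_sub_cancel' (mem_range.1 hj).le,
        shift_pow_eq_one hg]
      rfl
  · -- `c` is invariant
    simp only [op, Bool.not_true] at h0 ⊢
    have h1 : shift F g c = c := sub_eq_zero.1 h0
    have h2 : ∀ j : ℕ, (shift F g ^ j) c = c := by
      intro j
      induction j with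
      | zero => rfl
      | succ j ih => rw [pow_succ, end_mul_apply, h1, ih]
    refine ⟨restr R c, hρ c hc, ?_⟩
    funext l
    rw [end_sum_apply, Finset.sum_apply, hdec l]
    refine sum_congr rfl fun j _ => ?_
    rw [hsh, h2]

end free

variable [Fintype A]

omit [DecidableEq A] in
theorem bd_shift (g : Equiv.Perm A) (c : List A → F) : bd (shift F g c) = shift F g (bd c) := by
  funext l
  simp only [bd_apply, shift_apply, List.map_cons]
  exact Equiv.sum_comp g (fun v => c (v :: l.map g))

omit [DecidableEq A] in
theorem bd_shift_pow (g : Equiv.Perm A) (j : ℕ) (c : List A → F) :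
    bd ((shift F g ^ j) c) = (shift F g ^ j) (bd c) := by
  induction j with
  | zero => rfl
  | succ j ih => rw [pow_succ', end_mul_apply, end_mul_apply, bd_shift, ih]

omit [DecidableEq A] in
theorem bd_op (g : Equiv.Perm A) (p : ℕ) (b : Bool) (c : List A → F) :
    bd (op F g p b c) = op F g p b (bd c) := by
  cases b
  · simp only [op]
    rw [end_sum_apply, end_sum_apply, map_sum]
    exact sum_congr rfl fun j _ => bd_shift_pow g j c
  · change bd (shift F g c - c) = shift F g (bd c) - bd c
    rw [map_sub, bd_shift]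

/-- Combinatorial Dold theorem.  `Y` is a complex with a free action of the cyclic group of
prime order `p` generated by `g`, and `K s` are invariant subfamilies such that each cycle of size
`s` in `K s` bounds in `K (s + 1)`.  This is impossible. -/
theorem dold {p : ℕ} (hp : p.Prime) {g : Equiv.Perm A} (hg : g ^ p = 1)
    (Y : Finset A → Prop) (hdown : ∀ σ τ, Y σ → τ ⊆ σ → Y τ)
    (hY : ∀ σ, Y σ → Y (σ.image g)) (hfree : ∀ σ, Y σ → σ.Nonempty → σ.image g ≠ σ)
    (K : ℕ → Finset A → Prop) (hKY : ∀ s σ, K s σ → Y σ)
    (hK : ∀ s σ, K s σ → K s (σ.image g)) (v : A) (hv : K 1 {v})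
    (hb : ∀ s, 1 ≤ s → Bounds (ZMod p) (K s) (K (s + 1)) s) : False := by
  have hp0 := hp.pos
  have : Fact p.Prime := ⟨hp⟩
  have main : ∀ s : ℕ, ∃ (b : Bool) (h : List A → ZMod p), h ∈ chains (ZMod p) (K (s + 1)) (s + 1) ∧
      op (ZMod p) g p b (bd h) = 0 ∧
      ¬ ∃ a ∈ chains (ZMod p) Y (s + 1 + 1), ∃ a' ∈ chains (ZMod p) Y (s + 1),
        h = bd a + op (ZMod p) g p (!b) a' := by
    intro s
    induction s with
    | zero =>
      have hbd : ∀ l, bd (fun l : List A => if l = [v] then (1 : ZMod p) else 0) l =
          if l = [] then 1 else 0 := by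
        intro l
        rw [bd_apply]
        by_cases hl : l = []
        · simp [hl]
        · simp [hl]
      refine ⟨true, fun l => if l = [v] then 1 else 0, ⟨⟨?_, ?_⟩, ?_⟩, ?_, ?_⟩
      · intro pre u w l
        have h1 : ∀ a b : A, pre ++ a :: b :: l ≠ [v] := by
          intro a b h
          have := congrArg List.length h
          simp at this; omega
        simp [h1]
      · intro pre u l
        have h1 : pre ++ u :: u :: l ≠ [v] := by
          intro h
          have := congrArg List.length h
          simp at this; omega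
        simp [h1]
      · intro l hl
        have : l = [v] := by simpa using hl
        subst this
        exact ⟨rfl, by simpa using hv⟩
      · funext l
        change shift (ZMod p) g _ l - bd (fun l : List A => if l = [v] then (1 : ZMod p) else 0) l
          = 0
        rw [shift_apply, hbd, hbd]; simp
      · rintro ⟨a, ha, a', ha', h⟩
        have h1 := congrFun (congrArg bd h) []
        rw [hbd, map_add, bd_bd ha.1, zero_add, bd_op] at h1
        simp only [op, Bool.not_true, end_sum_apply, Finset.sum_apply, shift_pow_apply] at h1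
        simp at h1
    | succ s ih =>
      obtain ⟨b, h, h1, h2, h3⟩ := ih
      obtain ⟨h', h4, h5⟩ := hb (s + 1) (by omega) _ (op_mem hp0 hg (hK _) b h1)
        (by rw [bd_op, h2])
      refine ⟨!b, h', h4, ?_, ?_⟩
      · rw [h5, ← end_mul_apply, op_mul_op hg]; rfl
      · rintro ⟨a, ha, a', ha', h6⟩
        apply h3
        have h7 := congrArg bd h6
        rw [h5, map_add, bd_bd ha.1, zero_add, bd_op, Bool.not_not] at h7
        obtain ⟨e, he, he'⟩ := op_exact hp hg hY hfree b
          ((chains _ Y (s + 1)).sub_mem (chains_mono (hKY _) h1) (bd_mem hdown ha'))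
          (by rw [map_sub, h7, sub_self])
        exact ⟨a', ha', e, he, by rw [← he']; abel⟩
  obtain ⟨b, h, h1, -, h3⟩ := main (Fintype.card A)
  apply h3
  refine ⟨0, zero_mem _, 0, zero_mem _, ?_⟩
  rw [chains_eq_zero (by omega) h1]; simp

end Pool.Agent.Lib.ZpDold
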