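import Pool.Agent.Lib.ZpDold.Leray

/-!
# Joins with discrete sets, and a contraction lemma for order complexes
-/

namespace Pool.Agent.Lib.ZpDold

open Finset

variable {A : Type*} {F : Type*} [AddCommGroup F] [DecidableEq A] [Fintype A]

/-- Joining with a discrete set of new vertices raises the filling threshold by one. -/
theorem bounds_join {K : Finset A → Prop} (L : Finset A) (hL : ∀ σ, K σ → ∀ x ∈ L, x ∉ σ)
    {s : ℕ} (h1 : Bounds F K K s) (h2 : Bounds F K K (s + 1)) :
    Bounds F (fun σ => K σ ∨ ∃ x ∈ L, x ∈ σ ∧ K (σ.erase x))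
      (fun σ => K σ ∨ ∃ x ∈ L, x ∈ σ ∧ K (σ.erase x)) (s + 1) := by
  have main : ∀ L' : Finset A, L' ⊆ L →
      Bounds F (fun σ => K σ ∨ ∃ x ∈ L', x ∈ σ ∧ K (σ.erase x))
        (fun σ => K σ ∨ ∃ x ∈ L, x ∈ σ ∧ K (σ.erase x)) (s + 1) := by
    intro L'
    induction L' using Finset.induction_on with
    | empty =>
      intro _
      exact h2.mono (fun σ h => by simpa using h) (fun σ h => Or.inl h)
    | insert x L' hx ih =>
      intro hsub
      have hxL : x ∈ L := hsub (mem_insert_self _ _)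
      refine bounds_elim (L := K) x (h1.mono ?_ (fun σ h => h)) ?_ ?_ (fun σ h => Or.inl h)
        (ih ((subset_insert _ _).trans hsub))
      · rintro σ ⟨h | ⟨y, -, -, h⟩, hxσ⟩
        · exact absurd (mem_insert_self _ _) (hL _ h x hxL)
        · by_cases hy : y = x
          · subst hy; rwa [erase_insert hxσ] at h
          · exact absurd (mem_erase.2 ⟨Ne.symm hy, mem_insert_self _ _⟩) (hL _ h x hxL)
      · intro σ h
        exact Or.inr ⟨x, hxL, mem_insert_self _ _, by rwa [erase_insert (hL _ h x hxL)]⟩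
      · rintro σ (h | ⟨y, hy, hyσ, h⟩) hxσ
        · exact Or.inl h
        · rcases mem_insert.1 hy with rfl | hy
          · exact absurd hyσ hxσ
          · exact Or.inr ⟨y, hy, hyσ, h⟩
  exact main L subset_rfl

/-- Faces with at most one vertex on each level `t < j ≤ α`, whose part above level `α` lies
in `Y`. -/
def Levels (G : A → Prop) (lev : A → ℕ) (α : ℕ) (Y : Finset A → Prop) (t : ℕ) (σ : Finset A) :
    Prop :=
  (∀ x ∈ σ, G x ∧ t < lev x) ∧ (∀ x ∈ σ, ∀ y ∈ σ, lev x ≤ α → lev x = lev y → x = y) ∧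
    Y (σ.filter fun x => α < lev x)

theorem bounds_levels (G : A → Prop) (lev : A → ℕ) (α : ℕ) (Y : Finset A → Prop) (D : ℕ)
    (h : ∀ s, D ≤ s → Bounds F (Levels G lev α Y α) (Levels G lev α Y α) (s + 1)) :
    ∀ j t, t + j = α → ∀ s, D + j ≤ s →
      Bounds F (Levels G lev α Y t) (Levels G lev α Y t) (s + 1) := by
  classical
  intro j
  induction j with
  | zero =>
    intro t ht s hs
    have : t = α := by omega
    subst this
    exact h s hs
  | succ j ih =>
    intro t ht s hs
    obtain ⟨s, rfl⟩ : ∃ s', s = s' + 1 := ⟨s - 1, by omega⟩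
    have h1 := ih (t + 1) (by omega) s (by omega)
    have h2 := ih (t + 1) (by omega) (s + 1) (by omega)
    have h3 := bounds_join (univ.filter fun x => G x ∧ lev x = t + 1) (fun σ hσ x hx hxσ => by
      have := (hσ.1 x hxσ).2
      have := (mem_filter.1 hx).2.2
      omega) h1 h2
    have hfil : ∀ (σ : Finset A) (x : A), lev x = t + 1 →
        (σ.erase x).filter (fun x => α < lev x) = σ.filter (fun x => α < lev x) := by
      intro σ x hx
      ext y
      simp only [mem_filter, mem_erase]
      refine ⟨fun h => ⟨h.1.2, h.2⟩, fun h => ⟨⟨?_, h.1⟩, h.2⟩⟩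
      rintro rfl
      omega
    refine h3.mono ?_ ?_
    · rintro σ ⟨h4, h5, h6⟩
      by_cases hx : ∃ x ∈ σ, lev x = t + 1
      · obtain ⟨x, hx, hx'⟩ := hx
        refine Or.inr ⟨x, mem_filter.2 ⟨mem_univ _, (h4 x hx).1, hx'⟩, hx, ?_, ?_, ?_⟩
        · intro y hy
          obtain ⟨hy1, hy2⟩ := mem_erase.1 hy
          refine ⟨(h4 y hy2).1, ?_⟩
          have := (h4 y hy2).2
          by_contra hc
          exact hy1 (h5 y hy2 x hx (by omega) (by omega))
        · intro y hy z hz
          exact h5 y (mem_of_mem_erase hy) z (mem_of_mem_erase hz)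
        · rwa [hfil σ x hx']
      · push Not at hx
        refine Or.inl ⟨fun y hy => ⟨(h4 y hy).1, ?_⟩, h5, h6⟩
        have := (h4 y hy).2
        have := hx y hy
        omega
    · rintro σ (⟨h4, h5, h6⟩ | ⟨x, hx, hxσ, h4, h5, h6⟩)
      · exact ⟨fun y hy => ⟨(h4 y hy).1, by have := (h4 y hy).2; omega⟩, h5, h6⟩
      · obtain ⟨-, hx1, hx2⟩ := mem_filter.1 hx
        refine ⟨fun y hy => ?_, fun y hy z hz h7 h8 => ?_, by rwa [hfil σ x hx2] at h6⟩
        · by_cases hyx : y = x
          · subst hyx; exact ⟨hx1, by omega⟩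
          · have := h4 y (mem_erase.2 ⟨hyx, hy⟩)
            exact ⟨this.1, by omega⟩
        · by_cases hyx : y = x
          · by_cases hzx : z = x
            · rw [hyx, hzx]
            · have := (h4 z (mem_erase.2 ⟨hzx, hz⟩)).2
              subst hyx
              omega
          · by_cases hzx : z = x
            · have := (h4 y (mem_erase.2 ⟨hyx, hy⟩)).2
              subst hzx
              omega
            · exact h5 y (mem_erase.2 ⟨hyx, hy⟩) z (mem_erase.2 ⟨hzx, hz⟩) h7 h8

/-- Totally ordered finite subsets of the set of vertices satisfying `P`. -/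
def Ch [PartialOrder A] (P : A → Prop) (σ : Finset A) : Prop :=
  (∀ x ∈ σ, P x) ∧ ∀ x ∈ σ, ∀ y ∈ σ, x ≤ y ∨ y ≤ x

theorem bounds_poset [PartialOrder A] (P Q : A → Prop) (up : A → A) (e : A)
    (h1 : ∀ x, P x → Q (up x) ∧ x ≤ up x) (h2 : ∀ x y, P x → Q y → x ≤ y → up x ≤ y)
    (h3 : Q e) (h4 : ∀ y, Q y → e ≤ y) (h5 : ∀ x, P x → ¬ Q x) (s : ℕ) :
    Bounds F (Ch P) (Ch fun x => P x ∨ Q x) (s + 1) := by
  classical
  have main : ∀ (n : ℕ) (S : Finset A), S.card = n → (∀ x ∈ S, P x) →
      Bounds F (Ch fun x => x ∈ S ∨ Q x) (Ch fun x => P x ∨ Q x) (s + 1) := by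
    intro n
    induction n with
    | zero =>
      intro S hS _
      rw [card_eq_zero] at hS
      subst hS
      refine bounds_cone e (fun σ h => ⟨fun x hx => ?_, fun x hx y hy => ?_⟩) _
      · rcases mem_insert.1 hx with rfl | hx
        · exact Or.inr h3
        · exact Or.inr (by simpa using h.1 x hx)
      · rcases mem_insert.1 hx with hx | hx
        · rcases mem_insert.1 hy with hy | hy
          · rw [hx, hy]; exact Or.inl le_rfl
          · rw [hx]; exact Or.inl (h4 y (by simpa using h.1 y hy))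
        · rcases mem_insert.1 hy with hy | hy
          · rw [hy]; exact Or.inr (h4 x (by simpa using h.1 x hx))
          · exact h.2 x hx y hy
    | succ n ih =>
      intro S hS hSP
      obtain ⟨x, hx⟩ := S.exists_maximal (card_pos.1 (by omega))
      have hxP := hSP x hx.1
      refine bounds_elim (L := fun σ => Ch (fun x => x ∈ S ∨ Q x) (insert x σ) ∧ x ∉ σ) x
        (bounds_cone (up x) ?_ _) ?_ ?_ ?_
        (ih (S.erase x) (by rw [card_erase_of_mem hx.1]; omega)
          (fun y hy => hSP y (mem_of_mem_erase hy)))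
      · rintro σ ⟨⟨h6, h7⟩, h8⟩
        have hcmp : ∀ y ∈ insert x σ, y ≤ up x ∨ up x ≤ y := by
          intro y hy
          rcases h7 y hy x (mem_insert_self _ _) with h | h
          · exact Or.inl (h.trans (h1 x hxP).2)
          · rcases h6 y hy with h' | h'
            · exact Or.inl ((hx.2 h' h).trans (h1 x hxP).2)
            · exact Or.inr (h2 x y hxP h' h)
        refine ⟨?_, ?_⟩
        · rw [Finset.insert_comm]
          refine ⟨fun y hy => ?_, fun y hy z hz => ?_⟩
          · rcases mem_insert.1 hy with rfl | hy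
            · exact Or.inr (h1 x hxP).1
            · exact h6 y hy
          · rcases mem_insert.1 hy with rfl | hy
            · rcases mem_insert.1 hz with rfl | hz
              · exact Or.inl le_rfl
              · exact (hcmp z hz).symm
            · rcases mem_insert.1 hz with rfl | hz
              · exact hcmp y hy
              · exact h7 y hy z hz
        · intro h
          rcases mem_insert.1 h with h | h
          · exact h5 x hxP (h ▸ (h1 x hxP).1)
          · exact h8 h
      · rintro σ ⟨⟨h6, h7⟩, -⟩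
        exact ⟨fun y hy => (h6 y hy).imp_left (hSP y), h7⟩
      · rintro σ ⟨h6, h7⟩ h8
        refine ⟨fun y hy => (h6 y hy).imp_left fun h => mem_erase.2 ⟨?_, h⟩, h7⟩
        rintro rfl; exact h8 hy
      · rintro σ ⟨⟨h6, h7⟩, h8⟩
        refine ⟨fun y hy => (h6 y (mem_insert_of_mem hy)).imp_left fun h => mem_erase.2 ⟨?_, h⟩,
          fun y hy z hz => h7 y (mem_insert_of_mem hy) z (mem_insert_of_mem hz)⟩
        rintro rfl; exact h8 hy
  refine (main _ (univ.filter P) rfl (fun x hx => (mem_filter.1 hx).2)).mono ?_ (fun σ h => h)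
  exact fun σ h => ⟨fun x hx => Or.inl (mem_filter.2 ⟨mem_univ _, h.1 x hx⟩), h.2⟩

omit [Fintype A] in
theorem mem_hull_iff {E : Type*} [AddCommGroup E] [Module ℝ E] (a : A → E) (σ : Finset A)
    (z : E) : z ∈ convexHull ℝ (a '' σ) ↔
      ∃ w : A → ℝ, (∀ x ∈ σ, 0 ≤ w x) ∧ ∑ x ∈ σ, w x = 1 ∧ ∑ x ∈ σ, w x • a x = z := by
  constructor
  · intro h
    refine convexHull_min (t := {z | ∃ w : A → ℝ, (∀ x ∈ σ, 0 ≤ w x) ∧ ∑ x ∈ σ, w x = 1 ∧
      ∑ x ∈ σ, w x • a x = z}) ?_ ?_ h
    · rintro _ ⟨x, hx, rfl⟩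
      refine ⟨fun y => if y = x then 1 else 0, fun y _ => by beta_reduce; split_ifs <;> norm_num, ?_, ?_⟩
      · simp [mem_coe.1 hx]
      · simp [mem_coe.1 hx, ite_smul]
    · rintro _ ⟨w1, h1, h1', rfl⟩ _ ⟨w2, h2, h2', rfl⟩ s t hs ht hst
      refine ⟨fun x => s * w1 x + t * w2 x, fun x hx => ?_, ?_, ?_⟩
      · have := h1 x hx; have := h2 x hx; positivity
      · rw [sum_add_distrib, ← mul_sum, ← mul_sum, h1', h2']; linarith
      · simp only [add_smul, mul_smul, sum_add_distrib, smul_sum]
  · rintro ⟨w, h1, h2, rfl⟩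
    exact (convex_convexHull ℝ _).sum_mem h1 h2
      (fun x hx => subset_convexHull ℝ _ ⟨x, hx, rfl⟩)

end Pool.Agent.Lib.ZpDold
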