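import Pool.Agent.Lib.ZpDold.Chains

/-!
# The complex of sets whose convex hull misses a point has no high dimensional homology
-/

namespace Pool.Agent.Lib.ZpDold

open Finset
open scoped RealInnerProductSpace

variable {A : Type*} {F : Type*} [AddCommGroup F]
variable {E : Type*} [NormedAddCommGroup E] [InnerProductSpace ℝ E]

theorem exists_np (z : E) {K : Set E} (hK : K.Finite) (hne : K.Nonempty) :
    ∃ v ∈ convexHull ℝ K, ∀ w ∈ convexHull ℝ K, ⟪z - v, w - v⟫ ≤ 0 := by
  obtain ⟨v, hv, h⟩ := exists_norm_eq_iInf_of_complete_convex (hne.convexHull (𝕜 := ℝ))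
    (hK.isCompact_convexHull ℝ).isComplete (convex_convexHull ℝ K) z
  exact ⟨v, hv, (norm_eq_iInf_iff_real_inner_le_zero (convex_convexHull ℝ K) hv).1 h⟩

theorem np_sq (z v w : E) : ‖z - w‖ ^ 2 = ‖z - v‖ ^ 2 - 2 * ⟪z - v, w - v⟫ + ‖w - v‖ ^ 2 := by
  have : z - w = (z - v) - (w - v) := by abel
  rw [this, norm_sub_sq_real]

theorem np_lt {z v w : E} (h : ⟪z - v, w - v⟫ ≤ 0) (hne : w ≠ v) : ‖z - v‖ < ‖z - w‖ := by
  have h1 := np_sq z v w
  have h2 : 0 < ‖w - v‖ := norm_pos_iff.2 (sub_ne_zero.2 hne)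
  have h3 : ‖z - v‖ ^ 2 < ‖z - w‖ ^ 2 := by nlinarith
  exact lt_of_pow_lt_pow_left₀ 2 (norm_nonneg _) h3

theorem inner_combo (u y w1 w2 : E) {s t : ℝ} (h : s + t = 1) :
    ⟪u, s • w1 + t • w2 - y⟫ = s * ⟪u, w1 - y⟫ + t * ⟪u, w2 - y⟫ := by
  have : s • w1 + t • w2 - y = s • (w1 - y) + t • (w2 - y) := by
    have hy : y = s • y + t • y := by rw [← add_smul, h, one_smul]
    conv_lhs => rw [hy]
    simp only [smul_sub]; abel
  rw [this, inner_add_right, real_inner_smul_right, real_inner_smul_right]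

theorem half_convex (u y : E) : Convex ℝ {w : E | ⟪u, w - y⟫ ≤ 0} := by
  intro w1 h1 w2 h2 s t hs ht hst
  simp only [Set.mem_ofPred_eq] at h1 h2 ⊢
  rw [inner_combo u y w1 w2 hst]
  nlinarith [mul_nonneg hs (neg_nonneg.2 h1), mul_nonneg ht (neg_nonneg.2 h2)]

theorem not_mem_hull_insert {u y v : E} {K : Set E} (hK : ∀ w ∈ K, ⟪u, w - y⟫ ≤ 0)
    (hv : ⟪u, v - y⟫ < 0) (hy : y ∉ convexHull ℝ K) : y ∉ convexHull ℝ (insert v K) := by
  have hc : Convex ℝ {w : E | ⟪u, w - y⟫ ≤ 0 ∧ (⟪u, w - y⟫ = 0 → w ∈ convexHull ℝ K)} := by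
    intro w1 h1 w2 h2 s t hs ht hst
    refine ⟨half_convex u y h1.1 h2.1 hs ht hst, fun h0 => ?_⟩
    rw [inner_combo u y w1 w2 hst] at h0
    have e1 := mul_nonneg hs (neg_nonneg.2 h1.1)
    have e2 := mul_nonneg ht (neg_nonneg.2 h2.1)
    have e3 : s * ⟪u, w1 - y⟫ = 0 := by linarith
    have e4 : t * ⟪u, w2 - y⟫ = 0 := by linarith
    rcases mul_eq_zero.1 e3 with h3 | h3
    · have : t = 1 := by linarith
      subst h3 this
      simpa using h2.2 (by simpa using e4)
    · rcases mul_eq_zero.1 e4 with h4 | h4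
      · have : s = 1 := by linarith
        subst h4 this
        simpa using h1.2 h3
      · exact convex_convexHull ℝ K (h1.2 h3) (h2.2 h4) hs ht hst
  intro h
  have := convexHull_min (s := insert v K) ?_ hc h
  · exact hy (this.2 (by simp))
  · rintro w (rfl | hw)
    · exact ⟨hv.le, fun h => absurd h hv.ne⟩
    · exact ⟨hK w hw, fun _ => subset_convexHull ℝ K hw⟩

variable [DecidableEq A] [Fintype A]

omit [Fintype A] in
theorem chains_empty {K : Finset A → Prop} (hK : ∀ σ, K σ → σ = ∅) {s : ℕ} {c : List A → F}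
    (hc : c ∈ chains F K (s + 1)) : c = 0 := by
  funext l
  by_contra h
  obtain ⟨h1, h2⟩ := hc.2 l h
  have := hK _ h2
  cases l with
  | nil => simp at h1
  | cons a l => simp at this

theorem bounds_empty {K K' : Finset A → Prop} (hK : ∀ σ, K σ → σ = ∅) (s : ℕ) :
    Bounds F K K' (s + 1) := by
  intro c hc _
  exact ⟨0, zero_mem _, by rw [chains_empty hK hc, map_zero]⟩

theorem bounds_simplex (τ : Finset A) (s : ℕ) :
    Bounds F (fun σ => σ ⊆ τ) (fun σ => σ ⊆ τ) (s + 1) := by
  rcases τ.eq_empty_or_nonempty with rfl | ⟨v, hv⟩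
  · exact bounds_empty (fun σ h => subset_empty.1 h) s
  · exact bounds_cone (K' := fun σ => σ ⊆ τ) v (fun σ (h : σ ⊆ τ) => insert_subset hv h) _

/-- Cycles of size more than `D` bound in the complex of those subsets of `S` whose convex hull
misses `z`, when the points lie in a `D`-dimensional affine subspace through `z`. -/
theorem bounds_hull [FiniteDimensional ℝ E] (a : A → E) (D : ℕ) :
    ∀ (S : Finset A) (z : E) (U : Submodule ℝ E), Module.finrank ℝ U ≤ D →
      (∀ x ∈ S, a x - z ∈ U) → ∀ s, D ≤ s →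
      Bounds F (fun σ => σ ⊆ S ∧ z ∉ convexHull ℝ (a '' σ))
        (fun σ => σ ⊆ S ∧ z ∉ convexHull ℝ (a '' σ)) (s + 1) := by
  classical
  induction D with
  | zero =>
    intro S z U hU hS s _
    refine bounds_empty (fun σ h => ?_) s
    rw [eq_empty_iff_forall_notMem]
    intro x hx
    have h0 : U = ⊥ := Submodule.finrank_eq_zero.1 (Nat.le_zero.1 hU)
    have h1 := hS x (h.1 hx)
    rw [h0, Submodule.mem_bot, sub_eq_zero] at h1
    exact h.2 (subset_convexHull ℝ _ ⟨x, hx, h1⟩)
  | succ D ihD =>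
    intro S z U hU hS s hs
    obtain ⟨s, rfl⟩ : ∃ s', s = s' + 1 := ⟨s - 1, by omega⟩
    have hnp : ∀ σ : Finset A, ∃ v : E, σ.Nonempty → v ∈ convexHull ℝ (a '' σ) ∧
        ∀ w ∈ convexHull ℝ (a '' σ), ⟪z - v, w - v⟫ ≤ 0 := by
      intro σ
      by_cases h : σ.Nonempty
      · obtain ⟨v, hv⟩ := exists_np z (σ.finite_toSet.image a) (h.to_set.image a)
        exact ⟨v, fun _ => hv⟩
      · exact ⟨z, fun h' => absurd h' h⟩
    choose np hnp using hnp
    set Y : Finset A → Prop := fun σ => σ ⊆ S ∧ z ∉ convexHull ℝ (a '' σ) with hY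
    have main : ∀ (n : ℕ) (R : Finset E), R.card = n → (∀ y ∈ R, y ≠ z ∧ y - z ∈ U) →
        (∀ σ, Y σ → σ.Nonempty → ∀ y ∈ R, ‖z - y‖ < ‖z - np σ‖ → np σ ∈ R) →
        Bounds F (fun σ => Y σ ∧ (σ.Nonempty → np σ ∈ R)) Y (s + 1 + 1) := by
      intro n
      induction n with
      | zero =>
        intro R hR _ _
        rw [card_eq_zero] at hR
        subst hR
        refine bounds_empty (fun σ h => ?_) _
        by_contra hne
        simpa using h.2 (nonempty_iff_ne_empty.2 hne)
      | succ n ihn =>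
        intro R hR hRU hgood c hc hc0
        obtain ⟨y, hyR, hmin⟩ := exists_min_image R (fun y => ‖z - y‖)
          (card_pos.1 (by omega))
        obtain ⟨hyz, hyU⟩ := hRU y hyR
        have ih := ihn (R.erase y) (by rw [card_erase_of_mem hyR]; omega)
          (fun y' h => hRU y' (mem_of_mem_erase h))
          (fun σ h1 h2 y' h3 h4 => by
            refine mem_erase.2 ⟨?_, hgood σ h1 h2 y' (mem_of_mem_erase h3) h4⟩
            intro h5
            have := hmin y' (mem_of_mem_erase h3)
            rw [h5] at h4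
            linarith)
        set τ : Finset A := S.filter (fun x => ⟪z - y, a x - y⟫ ≤ 0) with hτ
        have hτhull : ∀ σ : Finset A, σ ⊆ τ → ∀ w ∈ convexHull ℝ (a '' σ),
            ⟪z - y, w - y⟫ ≤ 0 := by
          intro σ hσ w hw
          refine convexHull_min ?_ (half_convex (z - y) y) hw
          rintro _ ⟨x, hx, rfl⟩
          exact (mem_filter.1 (hσ hx)).2
        have hτY : ∀ σ : Finset A, σ ⊆ τ → Y σ := by
          intro σ hσ
          refine ⟨hσ.trans (filter_subset _ _), fun h => ?_⟩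
          have h1 := hτhull σ hσ z h
          have h2 : 0 < ⟪z - y, z - y⟫ := real_inner_self_pos.2 (sub_ne_zero.2 hyz.symm)
          linarith
        set P : Finset A → Prop := fun σ => σ.Nonempty ∧ np σ = y with hP
        have hcU := restr_mem P hc
        have hcU' : restr P c ∈ chains F (fun σ => σ ⊆ τ) (s + 1 + 1) := by
          refine chains_mono (fun σ h x hx => ?_) hcU
          refine mem_filter.2 ⟨h.1.1.1 hx, ?_⟩
          have := (hnp σ h.2.1).2 (a x) (subset_convexHull ℝ _ ⟨x, hx, rfl⟩)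
          rwa [h.2.2] at this
        have hsplit : c - restr P c = restr (fun σ => ¬ P σ) c := by
          funext l
          by_cases h : P l.toFinset
          · rw [Pi.sub_apply, restr_pos h, restr_neg (not_not.2 h), sub_self]
          · rw [Pi.sub_apply, restr_neg h, restr_pos (R := fun σ => ¬ P σ) h, sub_zero]
        have hrest := restr_mem (fun σ => ¬ P σ) hc
        rw [← hsplit] at hrest
        have hbdU : bd (restr P c) ∈
            chains F (fun σ => σ ⊆ τ ∧ y ∉ convexHull ℝ (a '' σ)) (s + 1) := by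
          have h1 := bd_mem (fun σ ρ h h' => h'.trans h) hcU'
          refine ⟨h1.1, fun l hl => ⟨(h1.2 l hl).1, (h1.2 l hl).2, fun hy => ?_⟩⟩
          have h2 : bd (restr P c) = - bd (c - restr P c) := by rw [map_sub, hc0]; simp
          rw [h2, Pi.neg_apply, neg_ne_zero, bd_apply] at hl
          obtain ⟨v, -, hv⟩ := exists_ne_zero_of_sum_ne_zero hl
          obtain ⟨-, ⟨h3, h4⟩, h5⟩ := hrest.2 _ hv
          have hne : (v :: l).toFinset.Nonempty := ⟨v, by simp⟩
          apply h5
          refine ⟨hne, ?_⟩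
          by_contra h6
          have h7 : y ∈ convexHull ℝ (a '' ((v :: l).toFinset : Set A)) := by
            refine convexHull_mono (Set.image_mono ?_) hy
            intro x hx; simp at hx ⊢; exact Or.inr hx
          have h8 := np_lt ((hnp _ hne).2 y h7) (Ne.symm h6)
          have h9 := hmin _ (h4 hne)
          linarith
        have hY' : Bounds F (fun σ => σ ⊆ τ ∧ y ∉ convexHull ℝ (a '' σ))
            (fun σ => σ ⊆ τ ∧ y ∉ convexHull ℝ (a '' σ)) (s + 1) := by
          by_cases hv : ∃ v ∈ τ, ⟪z - y, a v - y⟫ < 0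
          · obtain ⟨v, hv, hv'⟩ := hv
            refine bounds_cone v (fun σ h => ⟨insert_subset hv h.1, ?_⟩) _
            rw [coe_insert, Set.image_insert_eq]
            refine not_mem_hull_insert ?_ hv' h.2
            rintro _ ⟨x, hx, rfl⟩
            exact (mem_filter.1 (h.1 hx)).2
          · push Not at hv
            refine ihD τ y (U ⊓ (ℝ ∙ (z - y))ᗮ) ?_ ?_ s (by omega)
            · have : U ⊓ (ℝ ∙ (z - y))ᗮ < U := by
                refine lt_of_le_of_ne inf_le_left (fun h => ?_)
                have h1 : z - y ∈ U := by simpa using U.neg_mem hyU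
                rw [← h] at h1
                have h2 := Submodule.mem_orthogonal_singleton_iff_inner_right.1 h1.2
                exact hyz (sub_eq_zero.1 (inner_self_eq_zero.1 h2)).symm
              have := Submodule.finrank_lt_finrank_of_lt this
              omega
            · intro x hx
              refine ⟨?_, ?_⟩
              · have := U.sub_mem (hS x (mem_filter.1 hx).1) hyU
                simpa using this
              · exact Submodule.mem_orthogonal_singleton_iff_inner_right.2
                  (le_antisymm (mem_filter.1 hx).2 (hv x hx))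
        obtain ⟨e, he, he'⟩ := hY' _ hbdU (bd_bd hcU.1)
        obtain ⟨b, hb, hb'⟩ := bounds_simplex τ (s + 1) (restr P c - e)
          ((chains F _ _).sub_mem hcU' (chains_mono (fun σ h => h.1) he))
          (by rw [map_sub, he', sub_self])
        obtain ⟨b', hb1, hb2⟩ := ih (c - restr P c + e) ((chains F _ _).add_mem
          (chains_mono (fun σ h => ⟨h.1.1, fun hne =>
            mem_erase.2 ⟨fun h' => h.2 ⟨hne, h'⟩, h.1.2 hne⟩⟩) hrest)
          (chains_mono (fun σ h => ⟨hτY σ h.1, fun hne => by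
            have h1 : np σ ≠ y := fun h' => h.2 (h' ▸ (hnp σ hne).1)
            exact mem_erase.2 ⟨h1, hgood σ (hτY σ h.1) hne y hyR
              (np_lt (hτhull σ h.1 _ (hnp σ hne).1) h1)⟩⟩) he))
          (by rw [map_add, map_sub, hc0, he']; simp)
        refine ⟨b + b', (chains F _ _).add_mem (chains_mono hτY hb) hb1, ?_⟩
        rw [map_add, hb', hb2]; abel
    have := main _ ((univ.filter (fun σ => Y σ ∧ σ.Nonempty)).image np) rfl ?_ ?_
    · refine this.mono (fun σ h => ⟨h, fun hne => ?_⟩) (fun σ h => h)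
      exact mem_image_of_mem _ (mem_filter.2 ⟨mem_univ _, h, hne⟩)
    · intro y hy
      obtain ⟨σ, hσ, rfl⟩ := mem_image.1 hy
      obtain ⟨-, h1, h2⟩ := mem_filter.1 hσ
      refine ⟨fun h => h1.2 (h ▸ (hnp σ h2).1), ?_⟩
      have hc : Convex ℝ {w : E | w - z ∈ U} := by
        intro w1 h1 w2 h2 s t _ _ hst
        have : s • w1 + t • w2 - z = s • (w1 - z) + t • (w2 - z) := by
          have hz : z = s • z + t • z := by rw [← add_smul, hst, one_smul]
          conv_lhs => rw [hz]
          simp only [smul_sub]; abel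
        simp only [Set.mem_ofPred_eq] at h1 h2 ⊢
        rw [this]
        exact U.add_mem (U.smul_mem _ h1) (U.smul_mem _ h2)
      refine convexHull_min ?_ hc (hnp σ h2).1
      rintro _ ⟨x, hx, rfl⟩
      exact hS x (h1.1 hx)
    · intro σ h1 h2 _ _ _
      exact mem_image_of_mem _ (mem_filter.2 ⟨mem_univ _, h1, h2⟩)

end Pool.Agent.Lib.ZpDold
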